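import Pool.Agent.H78.Quasi

/-! Every algebraic lattice is the lattice of relative congruences of an algebra in a
quasivariety of finite signature; one signature and one finitely axiomatised quasivariety
serve for all algebraic lattices. -/

namespace Pool.Agent.Results.MP_f5a18c_al.AllAlgebraic

open Pool.Agent.H78.Quasi

universe u

theorem result :
    ∃ (σ : FirstOrder.Language.{0, 0}) (Ax : Set (QuasiIdentity σ)),
      σ.IsAlgebraic ∧ Finite (Σ n, σ.Functions n) ∧ Ax.Finite ∧
      ∀ (L : Type u) [CompleteLattice L] [IsCompactlyGenerated L],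
        ∃ (A : Type u) (S : σ.Structure A),
          Nonempty A ∧ InQuasivariety Ax S ∧ Nonempty (L ≃o RelCon Ax S) :=
  ⟨sig, Ax, inferInstance, sig_finite, (Set.finite_singleton _).insert _, fun L _ _ =>
    ⟨Cpt L × Cpt L, str L, ⟨(cb, cb)⟩, str_inQ, iso⟩⟩

end Pool.Agent.Results.MP_f5a18c_al.AllAlgebraic
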